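import Pool.Agent.H64.TC.ROT

/-!
# Module FLO: the affine flow on a simply connected covering of `G_4`
-/

open Filter Topology Polynomial Metric

namespace Pool.Agent.H63.TC

/-- the flow of the roots -/
noncomputable def flo_R {X : Type} (r : Fin 4 → X → ℂ) (θ : X → ℂ) (t : ℝ) (x : X) (i : Fin 4) :
    ℂ :=
  (1 - (t : ℝ) : ℂ) * r 0 x +
    Complex.exp ((1 - (t : ℝ) : ℂ) * θ x) * ((r i x - r 0 x) / (r 1 x - r 0 x))

lemma flo_ne {X : Type} {r : Fin 4 → X → ℂ} (hr : ∀ x, Function.Injective (fun i => r i x))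
    (x : X) : r 1 x - r 0 x ≠ 0 := by
  rw [sub_ne_zero]
  exact (hr x).ne (by decide : (1 : Fin 4) ≠ 0)

lemma flo_inj {X : Type} {r : Fin 4 → X → ℂ} {θ : X → ℂ}
    (hr : ∀ x, Function.Injective (fun i => r i x)) (t : ℝ) (x : X) :
    Function.Injective (flo_R r θ t x) := by
  intro i j hij
  have h1 := flo_ne hr x
  have h2 : Complex.exp ((1 - (t : ℝ) : ℂ) * θ x) ≠ 0 := Complex.exp_ne_zero _
  unfold flo_R at hij
  have h3 := add_left_cancel hij
  have h4 := mul_left_cancel₀ h2 h3
  have h5 : r i x - r 0 x = r j x - r 0 x := by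
    rwa [div_left_inj' h1] at h4
  exact hr x (sub_left_injective h5)

lemma flo_zero {X : Type} {r : Fin 4 → X → ℂ} {θ : X → ℂ}
    (hr : ∀ x, Function.Injective (fun i => r i x)) (hθ : ∀ x, Complex.exp (θ x) = r 1 x - r 0 x)
    (x : X) (i : Fin 4) : flo_R r θ 0 x i = r i x := by
  have h1 := flo_ne hr x
  simp only [flo_R, Complex.ofReal_zero, sub_zero, one_mul, hθ]
  field_simp
  ring

lemma flo_continuous {X : Type} [TopologicalSpace X] {r : Fin 4 → X → ℂ} {θ : X → ℂ}
    (hrc : ∀ i, Continuous (r i)) (hθc : Continuous θ)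
    (hr : ∀ x, Function.Injective (fun i => r i x)) (i : Fin 4) :
    Continuous (fun u : unitInterval × X => flo_R r θ u.1 u.2 i) := by
  unfold flo_R
  have h1 : Continuous (fun u : unitInterval × X => ((u.1 : ℝ) : ℂ)) :=
    Complex.continuous_ofReal.comp (continuous_subtype_val.comp continuous_fst)
  have h2 : ∀ j, Continuous (fun u : unitInterval × X => r j u.2) := fun j =>
    (hrc j).comp continuous_snd
  have h3 : Continuous (fun u : unitInterval × X => θ u.2) := hθc.comp continuous_snd
  have h0 := h2 0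
  refine ((continuous_const.sub h1).mul h0).add (Continuous.mul ?_ ?_)
  · exact Complex.continuous_exp.comp ((continuous_const.sub h1).mul h3)
  · exact ((h2 i).sub h0).div ((h2 1).sub h0) fun u => flo_ne hr u.2

/-- logarithm of a nowhere vanishing function -/
lemma flo_log {X : Type} [TopologicalSpace X] [SimplyConnectedSpace X]
    [LocallyPathConnectedSpace X] (f : X → ℂ) (hf : Continuous f) (h0 : ∀ x, f x ≠ 0) :
    ∃ θ : X → ℂ, Continuous θ ∧ ∀ x, Complex.exp (θ x) = f x := by
  obtain ⟨x₀⟩ : Nonempty X := inferInstance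
  obtain ⟨F, ⟨-, hF⟩, -⟩ := Complex.isCoveringMap_exp.existsUnique_continuousMap_lifts
    (⟨fun x => ⟨f x, h0 x⟩, hf.subtype_mk _⟩ : C(X, {z : ℂ // z ≠ 0})) x₀ (Complex.log (f x₀))
    (Subtype.ext (Complex.exp_log (h0 x₀)))
  exact ⟨F, F.continuous, fun x => congrArg Subtype.val (congrFun hF x)⟩

/-- Module FLO -/
theorem flo (hD : DscStmt) : FloStmt := by
  intro X _ _ p r hp hrc hr hprod
  have hl := rot_lpc hD p hp
  obtain ⟨θ, hθc, hθ⟩ := flo_log (fun x => r 1 x - r 0 x) ((hrc 1).sub (hrc 0)) (flo_ne hr)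
  have hRc := flo_continuous hrc hθc hr
  let c : C(unitInterval × X, GG 4) := ⟨fun u => rot_q hD ⟨flo_R r θ u.1 u.2, flo_inj hr _ _⟩,
    (rot_continuous_q hD).comp (Continuous.subtype_mk (continuous_pi hRc) _)⟩
  have hc0 : ∀ x, c (0, x) = p x := by
    intro x
    change rot_q hD _ = _
    rw [rot_q_eq, hprod x]
    refine Finset.prod_congr rfl fun i _ => ?_
    simp only [Set.Icc.coe_zero]
    rw [flo_zero hr hθ]
  let H := hp.liftHomotopy c (ContinuousMap.id X) hc0
  have hH : ∀ t x, p (H (t, x)) = c (t, x) := fun t x =>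
    congrFun (hp.liftHomotopy_lifts c (ContinuousMap.id X) hc0) (t, x)
  have hH0 : ∀ x, H (0, x) = x := hp.liftHomotopy_zero c (ContinuousMap.id X) hc0
  have hHc : ∀ x, Continuous (fun t : unitInterval => H (t, x)) := fun x =>
    H.continuous.comp (continuous_id.prodMk continuous_const)
  -- the roots of the lift
  have key : ∀ x t i, r i (H (t, x)) = flo_R r θ t x i := by
    intro x t i
    let g₁ : unitInterval → rot_Conf := fun t => ⟨fun i => r i (H (t, x)), hr _⟩
    let g₂ : unitInterval → rot_Conf := fun t => ⟨flo_R r θ t x, flo_inj hr _ _⟩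
    have h1 : Continuous g₁ :=
      Continuous.subtype_mk (continuous_pi fun i => (hrc i).comp (hHc x)) _
    have h2 : Continuous g₂ :=
      Continuous.subtype_mk (continuous_pi fun i => (hRc i).comp
        (continuous_id.prodMk continuous_const)) _
    have h3 : g₁ = g₂ := by
      refine (rot_covering hD).eq_of_comp_eq h1 h2 (funext fun s => ?_) 0 ?_
      · change rot_q hD (g₁ s) = c (s, x)
        rw [rot_q_eq, ← hH, hprod]
      · refine Subtype.ext (funext fun i => ?_)
        change r i (H (0, x)) = flo_R r θ ((0 : unitInterval) : ℝ) x i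
        rw [hH0, Set.Icc.coe_zero, flo_zero hr hθ]
    exact congrFun (congrArg Subtype.val (congrFun h3 t)) i
  have keyθ : ∀ x (t : unitInterval), θ (H (t, x)) = (1 - (t : ℝ) : ℂ) * θ x := by
    intro x t
    have h1 : Continuous (fun t : unitInterval => θ (H (t, x))) := hθc.comp (hHc x)
    have h2 : Continuous (fun t : unitInterval => (1 - (t : ℝ) : ℂ) * θ x) := by
      have : Continuous (fun t : unitInterval => ((t : ℝ) : ℂ)) :=
        Complex.continuous_ofReal.comp continuous_subtype_val
      fun_prop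
    have h3 : (fun t : unitInterval => θ (H (t, x))) =
        fun t : unitInterval => (1 - (t : ℝ) : ℂ) * θ x := by
      refine Complex.isCoveringMap_exp.eq_of_comp_eq h1 h2 (funext fun s => ?_) 0 ?_
      · refine Subtype.ext ?_
        change Complex.exp (θ (H (s, x))) = Complex.exp _
        rw [hθ, key, key]
        have := flo_ne hr x
        simp only [flo_R, sub_self, zero_div, mul_zero, add_zero, add_sub_cancel_left,
          div_self this, mul_one]
      · simp [hH0]
    exact congrFun h3 t
  refine ⟨θ, fun u => H (u.2, u.1), hθc, H.continuous.comp continuous_swap, hθ, hH0,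
    fun x t => ⟨keyθ x t, fun i => key x t i⟩, fun x h0 hθ0 t => ?_⟩
  -- stationary points
  have h1 : (fun s : unitInterval => H (s, x)) = fun _ => x := by
    refine hp.eq_of_comp_eq (hHc x) continuous_const (funext fun s => ?_) 0 (hH0 x)
    change p (H (s, x)) = p x
    rw [hH]
    change rot_q hD _ = _
    rw [rot_q_eq, hprod x]
    refine Finset.prod_congr rfl fun i _ => ?_
    have h2 : r 1 x = 1 := by
      have := hθ x
      rw [hθ0, h0, Complex.exp_zero, sub_zero] at this
      exact this.symm
    simp [flo_R, h0, hθ0, h2]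
  exact congrFun h1 t

end Pool.Agent.H63.TC
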