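import Pool.Agent.H64.TC.RTH
import Pool.Agent.H28.TC.COV

/-!
# Module ROT: continuous labelling of the roots on a simply connected covering
-/

open Filter Topology Polynomial Metric

namespace Pool.Agent.H63.TC

lemma rot_monic (z : Fin 4 → ℂ) : (monicPoly z).Monic ∧ (monicPoly z).natDegree = 4 := by
  have h : monicPoly z = X ^ 4 + ∑ i : Fin 4, C (z i) * X ^ (4 - 1 - (i : ℕ)) := rfl
  have hd : (∑ i : Fin 4, C (z i) * X ^ (4 - 1 - (i : ℕ))).degree < ((4 : ℕ) : WithBot ℕ) := by
    refine (Polynomial.degree_sum_le _ _).trans_lt ?_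
    rw [Finset.sup_lt_iff (by exact_mod_cast WithBot.bot_lt_coe 4)]
    intro i _
    refine (Polynomial.degree_C_mul_X_pow_le _ _).trans_lt ?_
    exact_mod_cast (by omega : 4 - 1 - (i : ℕ) < 4)
  constructor
  · rw [h]; exact Polynomial.monic_X_pow_add hd
  · rw [h, Polynomial.natDegree_add_eq_left_of_degree_lt (by simpa using hd)]
    simp

/-- four distinct roots give the factorisation -/
lemma rot_factor {z r : Fin 4 → ℂ} (hr : Function.Injective r)
    (h : ∀ i, (monicPoly z).eval (r i) = 0) : monicPoly z = ∏ i, (X - C (r i)) := by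
  have h1 : (∏ i, (X - C (r i)) : ℂ[X]).Monic := Polynomial.monic_prod_X_sub_C _ _
  have h2 : (∏ i, (X - C (r i)) : ℂ[X]).natDegree = 4 := by
    rw [Polynomial.natDegree_finsetProd_X_sub_C_eq_card]
    simp
  refine Polynomial.eq_of_degree_sub_lt_of_eval_index_eq (Finset.univ : Finset (Fin 4))
    (v := r) hr.injOn ?_ ?_
  · have h3 : (monicPoly z - ∏ i, (X - C (r i))).degree < (monicPoly z).degree := by
      refine Polynomial.degree_sub_lt_left ?_ (rot_monic z).1.ne_zero ?_
      · rw [Polynomial.degree_eq_natDegree (rot_monic z).1.ne_zero,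
          Polynomial.degree_eq_natDegree h1.ne_zero, h2, (rot_monic z).2]
      · rw [(rot_monic z).1.leadingCoeff, h1.leadingCoeff]
    rw [Polynomial.degree_eq_natDegree (rot_monic z).1.ne_zero, (rot_monic z).2] at h3
    simpa using h3
  · intro i _
    rw [h i, Polynomial.eval_prod]
    exact (Finset.prod_eq_zero (Finset.mem_univ i) (by simp)).symm

/-- local root functions, all four together -/
lemma rot_local {z₀ r : Fin 4 → ℂ} (h : monicPoly z₀ = ∏ i, (X - C (r i)))
    (hr : Function.Injective r) :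
    ∃ ε > 0, ∃ g : (Fin 4 → ℂ) → Fin 4 → ℂ, ContinuousOn g (ball z₀ ε) ∧ g z₀ = r ∧
      ∀ z ∈ ball z₀ ε, Function.Injective (g z) ∧ monicPoly z = ∏ i, (X - C (g z i)) := by
  choose g hg hg0 hgr hgu using fun k => rth_local h hr k
  have h1 : ∀ᶠ z in 𝓝 z₀, ∀ k, ContinuousAt (g k) z := by
    rw [Filter.eventually_all]
    intro k
    filter_upwards [(hg k).eventually (by simp)] with z hz
    exact hz.continuousAt
  have h2 : ∀ᶠ z in 𝓝 z₀, ∀ k, (monicPoly z).eval (g k z) = 0 := by
    rw [Filter.eventually_all]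
    exact hgr
  have h3 : ∀ᶠ z in 𝓝 z₀, ∀ i j, i ≠ j → g i z ≠ g j z := by
    rw [Filter.eventually_all]
    intro i
    rw [Filter.eventually_all]
    intro j
    by_cases hij : i = j
    · exact Filter.Eventually.of_forall fun z hz => absurd hij hz
    · have : ∀ᶠ z in 𝓝 z₀, g i z ≠ g j z :=
        ((hg i).continuousAt.ne_iff_eventually_ne (hg j).continuousAt).1
          (by rw [hg0, hg0]; exact hr.ne hij)
      filter_upwards [this] with z hz _
      exact hz
  obtain ⟨ε, hε, hb⟩ := Metric.eventually_nhds_iff_ball.1 (h1.and (h2.and h3))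
  refine ⟨ε, hε, fun z i => g i z, ?_, funext hg0, fun z hz => ?_⟩
  · rw [continuousOn_pi]
    intro i z hz
    exact ((hb z hz).1 i).continuousWithinAt
  · have hi : Function.Injective (fun i => g i z) := by
      intro i j hij
      by_contra hne
      exact (hb z hz).2.2 i j hne hij
    exact ⟨hi, rot_factor hi fun i => (hb z hz).2.1 i⟩

/-- two labellings of the same roots differ by a map of the indices -/
lemma rot_perm {r r' : Fin 4 → ℂ}
    (h : (∏ i, (X - C (r i)) : ℂ[X]) = ∏ i, (X - C (r' i))) (i : Fin 4) : ∃ j, r' i = r j := by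
  have h1 : (monicPoly (rth_coef r)).eval (r' i) = 0 := by
    rw [rth_monic_coef, h, Polynomial.eval_prod]
    exact Finset.prod_eq_zero (Finset.mem_univ i) (by simp)
  exact (rth_root_iff (rth_monic_coef r) _).1 h1

/-- separation of distinct points -/
lemma rot_sep {r : Fin 4 → ℂ} (hr : Function.Injective r) :
    ∃ ε > 0, ∀ r' r'' : Fin 4 → ℂ, r' ∈ ball r ε → r'' ∈ ball r ε → ∀ i j, r' i = r'' j → i = j := by
  have h1 : ∀ᶠ ε in 𝓝[>] (0 : ℝ), ∀ i j, i ≠ j → 2 * ε < dist (r i) (r j) := by
    rw [Filter.eventually_all]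
    intro i
    rw [Filter.eventually_all]
    intro j
    by_cases hij : i = j
    · exact Filter.Eventually.of_forall fun z hz => absurd hij hz
    · have hd : 0 < dist (r i) (r j) := dist_pos.2 (hr.ne hij)
      have : ∀ᶠ ε in 𝓝 (0 : ℝ), 2 * ε < dist (r i) (r j) := by
        have : ContinuousAt (fun ε : ℝ => 2 * ε) 0 := by fun_prop
        exact this.eventually_lt continuousAt_const (by simpa using hd)
      filter_upwards [this.filter_mono nhdsWithin_le_nhds] with ε hε _
      exact hε
  obtain ⟨ε, hε, h0⟩ := (h1.and self_mem_nhdsWithin).exists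
  refine ⟨ε, h0, fun r' r'' h' h'' i j hij => ?_⟩
  by_contra hne
  have h2 := hε i j hne
  have h3 : dist (r' i) (r i) < ε := (dist_le_pi_dist r' r i).trans_lt h'
  have h4 : dist (r'' j) (r j) < ε := (dist_le_pi_dist r'' r j).trans_lt h''
  have h5 : dist (r i) (r j) ≤ dist (r' i) (r i) + dist (r'' j) (r j) := by
    rw [dist_comm (r' i), ← hij]
    exact dist_triangle _ _ _
  linarith

/-- ordered configurations of four points -/
abbrev rot_Conf : Type := {r : Fin 4 → ℂ // Function.Injective r}

lemma rot_mem (hD : DscStmt) (r : rot_Conf) : rth_coef r.1 ∈ GG 4 :=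
  (hD _).2 ⟨r.1, r.2, rth_monic_coef _⟩

/-- the covering of `G_4` by ordered configurations -/
noncomputable def rot_q (hD : DscStmt) (r : rot_Conf) : GG 4 := ⟨rth_coef r.1, rot_mem hD r⟩

lemma rot_continuous_q (hD : DscStmt) : Continuous (rot_q hD) :=
  (rth_continuous_coef.comp continuous_subtype_val).subtype_mk _

lemma rot_q_eq {hD : DscStmt} {r : rot_Conf} {z : GG 4} :
    rot_q hD r = z ↔ monicPoly z.1 = ∏ i, (X - C (r.1 i)) := by
  constructor
  · rintro rfl
    exact rth_monic_coef _
  · intro h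
    exact Subtype.ext (rth_eq_coef h).symm

lemma rot_covering (hD : DscStmt) : IsCoveringMap (rot_q hD) := by
  classical
  refine cov rot_Conf (GG 4) (rot_q hD) (rot_continuous_q hD) ?_ ?_
  · intro r
    obtain ⟨ε, hε, h⟩ := rot_sep r.2
    refine ⟨Subtype.val ⁻¹' ball r.1 ε,
      continuous_subtype_val.continuousAt (isOpen_ball.mem_nhds (mem_ball_self hε)), ?_⟩
    intro r' h' r'' h'' he
    have h1 : (∏ i, (X - C (r'.1 i)) : ℂ[X]) = ∏ i, (X - C (r''.1 i)) := by
      rw [← rth_monic_coef, ← rth_monic_coef]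
      exact congrArg monicPoly (congrArg Subtype.val he)
    refine Subtype.ext (funext fun i => ?_)
    obtain ⟨j, hj⟩ := rot_perm h1 i
    have h2 : j = i := (h r'.1 r''.1 h' h'' j i hj.symm)
    rw [hj, h2]
  · intro z
    obtain ⟨r, hr, hz⟩ := (hD z.1).1 z.2
    obtain ⟨ε, hε, g, hgc, hg0, hg⟩ := rot_local hz hr
    have hsub : ball z.1 ε ⊆ GG 4 := fun w hw => (hD w).2 ⟨g w, (hg w hw).1, (hg w hw).2⟩
    refine ⟨Subtype.val ⁻¹' ball z.1 ε, isOpen_ball.preimage continuous_subtype_val,
      mem_ball_self hε, ?_, ?_⟩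
    · rw [← Topology.IsInducing.subtypeVal.isPreconnected_image,
        Set.image_preimage_eq_of_subset (by simpa using hsub)]
      exact (convex_ball _ _).isPreconnected
    · intro r' hr'
      have hr'b : (rot_q hD r').1 ∈ ball z.1 ε := hr'
      have h2 : (∏ i, (X - C (g (rot_q hD r').1 i)) : ℂ[X]) = ∏ i, (X - C (r'.1 i)) := by
        rw [← (hg _ hr'b).2]
        exact rth_monic_coef _
      choose σ hσ using fun i => rot_perm h2 i
      have hσi : Function.Injective σ := by
        intro i j hij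
        apply r'.2
        rw [hσ i, hσ j, hij]
      have hinj : ∀ w ∈ ball z.1 ε, Function.Injective fun i => g w (σ i) := fun w hw =>
        (hg w hw).1.comp hσi
      have hprod : ∀ w ∈ ball z.1 ε, monicPoly w = ∏ i, (X - C (g w (σ i))) := by
        intro w hw
        rw [(hg w hw).2]
        exact ((Equiv.ofBijective σ (Finite.injective_iff_bijective.1 hσi)).prod_comp
          (fun i => (X - C (g w i) : ℂ[X]))).symm
      let s : GG 4 → rot_Conf := fun w =>
        if hw : Function.Injective fun i => g w.1 (σ i) then ⟨_, hw⟩ else r'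
      have hs : ∀ w : GG 4, w.1 ∈ ball z.1 ε → (s w).1 = fun i => g w.1 (σ i) := by
        intro w hw
        simp only [s, dif_pos (hinj w.1 hw)]
      refine ⟨s, ?_, ?_, ?_⟩
      · refine Topology.IsInducing.subtypeVal.continuousOn_iff.2 ?_
        refine ContinuousOn.congr (f := fun w : GG 4 => fun i => g w.1 (σ i)) ?_ hs
        rw [continuousOn_pi]
        intro i
        have h5 : ContinuousOn (fun w : GG 4 => g w.1) (Subtype.val ⁻¹' ball z.1 ε) :=
          hgc.comp continuous_subtype_val.continuousOn (fun w hw => hw)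
        exact (continuousOn_pi.1 h5) (σ i)
      · intro w hw
        rw [rot_q_eq, hs w hw]
        exact hprod w.1 hw
      · refine Subtype.ext ?_
        rw [hs _ hr'b]
        exact funext fun i => (hσ i).symm

lemma rot_isOpen_GG (hD : DscStmt) : IsOpen (GG 4) := by
  rw [isOpen_iff_mem_nhds]
  intro z hz
  obtain ⟨r, hr, h⟩ := (hD z).1 hz
  obtain ⟨ε, hε, g, hgc, hg0, hg⟩ := rot_local h hr
  exact Filter.mem_of_superset (isOpen_ball.mem_nhds (mem_ball_self hε))
    fun w hw => (hD w).2 ⟨g w, (hg w hw).1, (hg w hw).2⟩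

lemma rot_lpc (hD : DscStmt) {X : Type} [TopologicalSpace X] (p : X → GG 4)
    (hp : IsCoveringMap p) : LocallyPathConnectedSpace X := by
  have h1 : LocallyPathConnectedSpace (GG 4) := (rot_isOpen_GG hD).locallyPathConnectedSpace
  choose e he1 he2 using hp.isLocalHomeomorph
  let _ : ChartedSpace (GG 4) X :=
    { atlas := Set.range e
      chartAt := e
      mem_chart_source := he1
      chart_mem_atlas := fun x => ⟨x, rfl⟩ }
  exact ChartedSpace.locallyPathConnectedSpace (GG 4) X

/-- Module ROT -/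
theorem rot (hD : DscStmt) : RotStmt := by
  intro X _ _ p hp
  have hl := rot_lpc hD p hp
  obtain ⟨x₀⟩ : Nonempty X := inferInstance
  obtain ⟨r, hr, hz⟩ := (hD (p x₀).1).1 (p x₀).2
  obtain ⟨F, ⟨-, hF⟩, -⟩ := (rot_covering hD).existsUnique_continuousMap_lifts
    ⟨p, hp.continuous⟩ x₀ ⟨r, hr⟩ (rot_q_eq.2 hz)
  refine ⟨fun i x => (F x).1 i, fun i => ?_, fun x => (F x).2, fun x => ?_⟩
  · exact (continuous_apply i).comp (continuous_subtype_val.comp F.continuous)
  · exact rot_q_eq.1 (congrFun hF x)

end Pool.Agent.H63.TC
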