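import Pool.Agent.H63.TC.FinDefs

/-!
# Module RTH: simple roots depend holomorphically on the coefficients
-/

open Filter Topology Polynomial

namespace Pool.Agent.H63.TC

lemma rth_eval (z : Fin 4 → ℂ) (c : ℂ) :
    (monicPoly z).eval c = c ^ 4 + z 0 * c ^ 3 + z 1 * c ^ 2 + z 2 * c + z 3 := by
  simp [monicPoly, Fin.sum_univ_four]
  ring

/-- the coefficients of the monic polynomial with given roots -/
noncomputable def rth_coef (r : Fin 4 → ℂ) : Fin 4 → ℂ :=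
  ![-(r 0 + r 1 + r 2 + r 3),
    r 0 * r 1 + r 0 * r 2 + r 0 * r 3 + r 1 * r 2 + r 1 * r 3 + r 2 * r 3,
    -(r 0 * r 1 * r 2 + r 0 * r 1 * r 3 + r 0 * r 2 * r 3 + r 1 * r 2 * r 3),
    r 0 * r 1 * r 2 * r 3]

lemma rth_continuous_coef : Continuous rth_coef := by
  refine continuous_pi fun i => ?_
  fin_cases i <;> simp only [rth_coef] <;> simp <;> fun_prop

lemma rth_ext {P Q : ℂ[X]} (h : ∀ c, P.eval c = Q.eval c) : P = Q := Polynomial.funext h

lemma rth_monic_coef (r : Fin 4 → ℂ) : monicPoly (rth_coef r) = ∏ i, (X - C (r i)) := by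
  refine rth_ext fun c => ?_
  rw [rth_eval]
  simp [Fin.prod_univ_four, rth_coef]
  ring

lemma rth_inj {z w : Fin 4 → ℂ} (h : monicPoly z = monicPoly w) : z = w := by
  have h0 : ∀ c : ℂ, c ^ 4 + z 0 * c ^ 3 + z 1 * c ^ 2 + z 2 * c + z 3 =
      c ^ 4 + w 0 * c ^ 3 + w 1 * c ^ 2 + w 2 * c + w 3 := fun c => by
    rw [← rth_eval, ← rth_eval, h]
  have a0 := h0 0
  have a1 := h0 1
  have a2 := h0 (-1)
  have a3 := h0 2
  have b3 : z 3 = w 3 := by linear_combination a0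
  have b1 : z 1 = w 1 := by linear_combination (a1 + a2) / 2 - b3
  have b2 : z 0 = w 0 := by linear_combination (a3 - 2 * a1) / 6 - b1 / 3 + b3 / 6
  have b4 : z 2 = w 2 := by linear_combination a1 - b1 - b2 - b3
  funext i
  fin_cases i <;> simp <;> assumption

/-- a labelling of the roots determines the coefficients -/
lemma rth_eq_coef {z r : Fin 4 → ℂ} (h : monicPoly z = ∏ i, (X - C (r i))) : z = rth_coef r :=
  rth_inj (h.trans (rth_monic_coef r).symm)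

lemma rth_root_iff {z r : Fin 4 → ℂ} (h : monicPoly z = ∏ i, (X - C (r i))) (c : ℂ) :
    (monicPoly z).eval c = 0 ↔ ∃ i, c = r i := by
  rw [h, Polynomial.eval_prod, Finset.prod_eq_zero_iff]
  simp [sub_eq_zero]

/-- the derivative at a simple root -/
lemma rth_deriv_ne {z r : Fin 4 → ℂ} (h : monicPoly z = ∏ i, (X - C (r i)))
    (hr : Function.Injective r) (k : Fin 4) :
    4 * r k ^ 3 + 3 * z 0 * r k ^ 2 + 2 * z 1 * r k + z 2 ≠ 0 := by
  have hz := rth_eq_coef h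
  have h01 : r 0 ≠ r 1 := hr.ne (by decide)
  have h02 : r 0 ≠ r 2 := hr.ne (by decide)
  have h03 : r 0 ≠ r 3 := hr.ne (by decide)
  have h12 : r 1 ≠ r 2 := hr.ne (by decide)
  have h13 : r 1 ≠ r 3 := hr.ne (by decide)
  have h23 : r 2 ≠ r 3 := hr.ne (by decide)
  have z0 : z 0 = -(r 0 + r 1 + r 2 + r 3) := by rw [hz]; simp [rth_coef]
  have z1 : z 1 = r 0 * r 1 + r 0 * r 2 + r 0 * r 3 + r 1 * r 2 + r 1 * r 3 + r 2 * r 3 := by
    rw [hz]; simp [rth_coef]
  have z2 : z 2 = -(r 0 * r 1 * r 2 + r 0 * r 1 * r 3 + r 0 * r 2 * r 3 + r 1 * r 2 * r 3) := by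
    rw [hz]; simp [rth_coef]
  rw [z0, z1, z2]
  rw [← sub_ne_zero] at h01 h02 h03 h12 h13 h23
  fin_cases k
  · have : (r 0 - r 1) * (r 0 - r 2) * (r 0 - r 3) ≠ 0 := by positivity
    convert this using 1
    simp; ring
  · have : (r 0 - r 1) * (r 1 - r 2) * (r 1 - r 3) ≠ 0 := by positivity
    rw [← neg_ne_zero] at this
    convert this using 1
    simp; ring
  · have : (r 0 - r 2) * (r 1 - r 2) * (r 2 - r 3) ≠ 0 := by positivity
    convert this using 1
    simp; ring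
  · have : (r 0 - r 3) * (r 1 - r 3) * (r 2 - r 3) ≠ 0 := by positivity
    rw [← neg_ne_zero] at this
    convert this using 1
    simp; ring

/-- the polynomial as a function of both variables -/
noncomputable def rth_F (u : (Fin 4 → ℂ) × ℂ) : ℂ :=
  u.2 ^ 4 + u.1 0 * u.2 ^ 3 + u.1 1 * u.2 ^ 2 + u.1 2 * u.2 + u.1 3

lemma rth_contDiff {n : WithTop ℕ∞} : ContDiff ℂ n rth_F := by
  unfold rth_F
  fun_prop

lemma rth_fderiv (z : Fin 4 → ℂ) (c : ℂ) (v : ℂ) :
    (fderiv ℂ rth_F (z, c) ∘L .inr ℂ (Fin 4 → ℂ) ℂ) v =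
      (4 * c ^ 3 + 3 * z 0 * c ^ 2 + 2 * z 1 * c + z 2) * v := by
  have h1 : HasFDerivAt rth_F (fderiv ℂ rth_F (z, c)) (z, c) :=
    ((rth_contDiff (n := 1)).differentiable (by simp) _).hasFDerivAt
  have h2 : HasDerivAt (fun t : ℂ => (z, t)) ((0 : Fin 4 → ℂ), (1 : ℂ)) c :=
    (hasDerivAt_const c z).prodMk (hasDerivAt_id c)
  have h3 := h1.comp_hasDerivAt c h2
  have h4 : HasDerivAt (fun t : ℂ => rth_F (z, t))
      (4 * c ^ 3 + 3 * z 0 * c ^ 2 + 2 * z 1 * c + z 2) c := by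
    have := ((((hasDerivAt_pow 4 c).add ((hasDerivAt_pow 3 c).const_mul (z 0))).add
      ((hasDerivAt_pow 2 c).const_mul (z 1))).add ((hasDerivAt_id c).const_mul (z 2))).add_const
        (z 3)
    refine this.congr_deriv ?_
    simp
    ring
  have h5 := h3.unique h4
  have h6 : (fderiv ℂ rth_F (z, c) ∘L .inr ℂ (Fin 4 → ℂ) ℂ) v =
      v * (fderiv ℂ rth_F (z, c) ∘L .inr ℂ (Fin 4 → ℂ) ℂ) 1 := by
    conv_lhs => rw [← mul_one v]
    rw [← smul_eq_mul, map_smul, smul_eq_mul]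
  rw [h6]
  change v * (fderiv ℂ rth_F (z, c)) ((0 : Fin 4 → ℂ), (1 : ℂ)) = _
  rw [h5]
  ring

lemma rth_invertible {z r : Fin 4 → ℂ} (h : monicPoly z = ∏ i, (X - C (r i)))
    (hr : Function.Injective r) (k : Fin 4) :
    (fderiv ℂ rth_F (z, r k) ∘L .inr ℂ (Fin 4 → ℂ) ℂ).IsInvertible := by
  have hne := rth_deriv_ne h hr k
  refine ⟨ContinuousLinearEquiv.unitsEquivAut ℂ (Units.mk0 _ hne), ?_⟩
  ext
  rw [rth_fderiv]
  simp

/-- local root functions -/
lemma rth_local {z r : Fin 4 → ℂ} (h : monicPoly z = ∏ i, (X - C (r i)))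
    (hr : Function.Injective r) (k : Fin 4) :
    ∃ g : (Fin 4 → ℂ) → ℂ, ContDiffAt ℂ 1 g z ∧ g z = r k ∧
      (∀ᶠ w in 𝓝 z, (monicPoly w).eval (g w) = 0) ∧
      ∀ᶠ u in 𝓝 (z, r k), (monicPoly u.1).eval u.2 = 0 → g u.1 = u.2 := by
  have hc : ContDiffAt ℂ 1 rth_F (z, r k) := rth_contDiff.contDiffAt
  have hi := rth_invertible h hr k
  have h0 : rth_F (z, r k) = 0 := by
    have := (rth_root_iff h (r k)).2 ⟨k, rfl⟩
    rwa [rth_eval] at this
  refine ⟨hc.implicitFunction one_ne_zero hi, hc.contDiffAt_implicitFunction one_ne_zero hi,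
    hc.implicitFunction_apply_self one_ne_zero hi, ?_, ?_⟩
  · filter_upwards [hc.eventually_apply_implicitFunction one_ne_zero hi] with w hw
    rw [rth_eval]
    rw [h0] at hw
    exact hw
  · filter_upwards [hc.eventually_apply_eq_iff_implicitFunction one_ne_zero hi] with u hu h2
    rw [h0] at hu
    rw [rth_eval] at h2
    exact hu.1 h2

/-- Module RTH -/
theorem rth (hD : DscStmt) : RthStmt := by
  intro z₀ ρ hz hρ hev
  obtain ⟨r, hr, h⟩ := (hD z₀).1 hz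
  obtain ⟨k, hk⟩ := (rth_root_iff h (ρ z₀)).1 hev.self_of_nhds
  obtain ⟨g, hg, hg0, -, hu⟩ := rth_local h hr k
  have h1 : Tendsto (fun w => (w, ρ w)) (𝓝 z₀) (𝓝 (z₀, r k)) := by
    rw [← hk]
    exact (continuousAt_id.prodMk hρ)
  have h2 : g =ᶠ[𝓝 z₀] ρ := by
    filter_upwards [h1.eventually hu, hev] with w hw hw2
    exact hw hw2
  exact (hg.differentiableAt (by simp)).congr_of_eventuallyEq h2.symm

end Pool.Agent.H63.TC
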