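import Pool.Agent.H64.TC.FLO
import Pool.Agent.H28.TC.LIFE

/-!
# Module SLI: the universal covering of `MM` is a holomorphic retract of that of `G_4`
-/

open Filter Topology Polynomial Metric Set

namespace Pool.Agent.H63.TC

/-- lifting on convex sets, for a covering of `GG 4` -/
theorem sli_life {X : Type} [TopologicalSpace X] (p : X → GG 4) (hp : IsCoveringMap p)
    {N : Type} [NormedAddCommGroup N] [NormedSpace ℝ N] (S : Set N) (g : N → Fin 4 → ℂ) (s₀ : N)
    (x₀ : X) (hS : Convex ℝ S) (hs : s₀ ∈ S) (hg : ContinuousOn g S) (hgM : ∀ s ∈ S, g s ∈ GG 4)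
    (h₀ : (p x₀ : Fin 4 → ℂ) = g s₀) :
    ∃ G : N → X, ContinuousOn G S ∧ (∀ s ∈ S, (p (G s) : Fin 4 → ℂ) = g s) ∧ G s₀ = x₀ := by
  classical
  have : ContractibleSpace S := hS.contractibleSpace ⟨s₀, hs⟩
  have : LocallyPathConnectedSpace S := hS.locallyPathConnectedSpace
  let f : C(S, GG 4) := ⟨fun s => ⟨g s, hgM s s.2⟩, by
    refine Continuous.subtype_mk ?_ _
    exact hg.domRestrict⟩
  obtain ⟨F, ⟨hF0, hF⟩, -⟩ := hp.existsUnique_continuousMap_lifts f ⟨s₀, hs⟩ x₀
    (Subtype.ext h₀)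
  refine ⟨fun s => if h : s ∈ S then F ⟨s, h⟩ else x₀, ?_, ?_, ?_⟩
  · rw [continuousOn_iff_continuous_domRestrict]
    refine F.continuous.congr fun s => ?_
    simp [Set.domRestrict]
  · intro s hs'
    simp only [dif_pos hs']
    have := congrFun hF ⟨s, hs'⟩
    exact congrArg Subtype.val this
  · simp only [dif_pos hs, hF0]

/-- local sections -/
lemma sli_sec (hD : DscStmt) {X : Type} [TopologicalSpace X] (p : X → GG 4)
    (hp : IsCoveringMap p) (x : X) :
    ∃ s : (Fin 4 → ℂ) → X, s (p x) = x ∧ ContinuousAt s (p x) ∧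
      (∀ᶠ z in 𝓝 (p x : Fin 4 → ℂ), (p (s z) : Fin 4 → ℂ) = z) ∧
      ∀ᶠ y in 𝓝 x, s (p y) = y := by
  classical
  obtain ⟨e, hx, he⟩ := hp.isLocalHomeomorph x
  have hO := rot_isOpen_GG hD
  let s : (Fin 4 → ℂ) → X := fun z => if h : z ∈ GG 4 then e.symm ⟨z, h⟩ else x
  have hs : ∀ z : GG 4, s z = e.symm z := fun z => dif_pos z.2
  have hpx : p x ∈ e.target := by
    rw [he]; exact e.map_source hx
  refine ⟨s, ?_, ?_, ?_, ?_⟩
  · rw [hs, he, e.left_inv hx]
  · rw [← hO.isOpenEmbedding_subtypeVal.continuousAt_iff]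
    have h1 : s ∘ Subtype.val = e.symm := funext hs
    rw [h1]
    exact e.continuousAt_symm hpx
  · have h1 : ∀ᶠ z : GG 4 in 𝓝 (p x), p (s z) = z := by
      filter_upwards [e.open_target.mem_nhds hpx] with z hz
      rw [hs, he, e.right_inv hz]
    have h2 : 𝓝 (p x : Fin 4 → ℂ) = Filter.map Subtype.val (𝓝 (p x)) :=
      (hO.isOpenEmbedding_subtypeVal.map_nhds_eq _).symm
    rw [h2, Filter.eventually_map]
    filter_upwards [h1] with z hz
    rw [hz]
  · filter_upwards [e.open_source.mem_nhds hx] with y hy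
    rw [hs, he, e.left_inv hy]

lemma sli_t2 {X : Type} [TopologicalSpace X] (p : X → GG 4) (hp : IsCoveringMap p) :
    T2Space X := by
  refine ⟨fun x y hxy => ?_⟩
  by_cases h : p x = p y
  · exact hp.isSeparatedMap x y h hxy
  · obtain ⟨u, v, hu, hv, hxu, hyv, huv⟩ := t2_separation h
    exact ⟨p ⁻¹' u, p ⁻¹' v, hu.preimage hp.continuous, hv.preimage hp.continuous, hxu, hyv,
      huv.preimage p⟩

/-- coefficients of the polynomial with the roots `0, 1, x, y` -/
noncomputable def sli_c (m : ℂ × ℂ) : Fin 4 → ℂ := rth_coef ![0, 1, m.1, m.2]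

lemma sli_c_differentiable : Differentiable ℂ sli_c := by
  rw [differentiable_pi]
  intro i
  simp only [sli_c, rth_coef]
  fin_cases i
  all_goals simp
  all_goals fun_prop

lemma sli_inj {m : ℂ × ℂ} (hm : m ∈ MM) :
    Function.Injective (![0, 1, m.1, m.2] : Fin 4 → ℂ) := by
  obtain ⟨h1, h2, h3, h4, h5⟩ := hm
  intro i j hij
  fin_cases i <;> fin_cases j <;> simp_all [eq_comm]

lemma sli_mem (hD : DscStmt) {m : ℂ × ℂ} (hm : m ∈ MM) : sli_c m ∈ GG 4 :=
  (hD _).2 ⟨_, sli_inj hm, rth_monic_coef _⟩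


/-- two points over the same point of `G_4`, one moving along a local section -/
lemma sli_hol (hD : DscStmt) {X : Type} [TopologicalSpace X] (p : X → GG 4)
    (r : Fin 4 → X → ℂ) (hp : IsCoveringMap p) (hrc : ∀ i, Continuous (r i))
    (hprod : ∀ x, monicPoly (p x : Fin 4 → ℂ) = ∏ i, (Polynomial.X - Polynomial.C (r i x)))
    (F : X → X) (hF : HolAlong p F) (x : X) (σ : ℂ × ℂ → X) (m₀ : ℂ × ℂ) (hσ0 : σ m₀ = x)
    (hσc : ContinuousAt σ m₀) (hσ : ∀ᶠ m in 𝓝 m₀, (p (σ m) : Fin 4 → ℂ) = sli_c m) (i : Fin 4) :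
    DifferentiableAt ℂ (fun m => r i (F (σ m))) m₀ := by
  obtain ⟨s, hs0, hsc, hsp, hsy⟩ := sli_sec hD p hp x
  obtain ⟨s', hs0', hsc', hsp', hsy'⟩ := sli_sec hD p hp (F x)
  have h1 := hF.2 x s hs0 hsc hsp
  have hpm : (p x : Fin 4 → ℂ) = sli_c m₀ := by rw [← hσ0]; exact hσ.self_of_nhds
  have h2 : DifferentiableAt ℂ (fun m => (p (F (s (sli_c m))) : Fin 4 → ℂ)) m₀ := by
    rw [hpm] at h1
    exact h1.comp m₀ sli_c_differentiable.differentiableAt
  have h3 : ∀ᶠ m in 𝓝 m₀, s (sli_c m) = σ m := by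
    have h4 : ∀ᶠ m in 𝓝 m₀, s (p (σ m)) = σ m := by
      have : Tendsto σ (𝓝 m₀) (𝓝 x) := by rw [← hσ0]; exact hσc
      exact this.eventually hsy
    filter_upwards [h4, hσ] with m hm1 hm2
    rw [← hm2, hm1]
  have h5 : DifferentiableAt ℂ (fun m => (p (F (σ m)) : Fin 4 → ℂ)) m₀ := by
    refine h2.congr_of_eventuallyEq ?_
    filter_upwards [h3] with m hm
    rw [hm]
  -- the root function near `p (F x)`
  have h6 : DifferentiableAt ℂ (fun w => r i (s' w)) (p (F x) : Fin 4 → ℂ) := by
    refine rth hD _ _ (p (F x)).2 ?_ ?_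
    · exact ContinuousAt.comp (g := r i) (f := s') (hrc i).continuousAt hsc'
    · filter_upwards [hsp'] with w hw
      have h7 := hprod (s' w)
      rw [hw] at h7
      exact (rth_root_iff h7 _).2 ⟨i, rfl⟩
  have h8 : DifferentiableAt ℂ (fun m => r i (s' (p (F (σ m))))) m₀ := by
    refine DifferentiableAt.comp (g := fun w => r i (s' w))
      (f := fun m => (p (F (σ m)) : Fin 4 → ℂ)) m₀ ?_ h5
    rw [hσ0]
    exact h6
  refine h8.congr_of_eventuallyEq ?_
  have h9 : Tendsto (fun m => F (σ m)) (𝓝 m₀) (𝓝 (F x)) := by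
    have : Tendsto σ (𝓝 m₀) (𝓝 x) := by rw [← hσ0]; exact hσc
    exact (hF.1.tendsto x).comp this
  filter_upwards [h9.eventually hsy'] with m hm
  rw [hm]

/-- Module SLI -/
theorem sli (hD : DscStmt) (hscv : ScvStmt) : SliStmt := by
  classical
  intro X _ _ p hp
  have hX2 := sli_t2 p hp
  obtain ⟨r, hrc, hr, hprod⟩ := rot hD X p hp
  obtain ⟨θ, H, hθc, hHc, hθ, hH0, hH, hst⟩ := flo hD X p r hp hrc hr hprod
  let V : Type := {x : X // r 0 x = 0 ∧ θ x = 0}
  let j : V → X := Subtype.val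
  have hj : Continuous j := continuous_subtype_val
  have hπV : ∀ x, r 0 (H (x, 1)) = 0 ∧ θ (H (x, 1)) = 0 := fun x => by
    have h1 := hH x 1
    refine ⟨?_, ?_⟩
    · rw [h1.2 0]; simp
    · rw [h1.1]; simp
  let π : X → V := fun x => ⟨H (x, 1), hπV x⟩
  have hπ : Continuous π := (hHc.comp (continuous_id.prodMk continuous_const)).subtype_mk _
  have hπj : ∀ v, π (j v) = v := fun v => Subtype.ext (hst v.1 v.2.1 v.2.2 1)
  have hVs : SimplyConnectedSpace V := hscv X V j π hj hπ hπj
  -- the covering of `MM`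
  have hr1 : ∀ v : V, r 1 v.1 = 1 := fun v => by
    have := hθ v.1
    rw [v.2.2, v.2.1, Complex.exp_zero, sub_zero] at this
    exact this.symm
  let E : V → ℂ × ℂ := fun v => (r 2 v.1, r 3 v.1)
  have hEc : Continuous E := ((hrc 2).comp hj).prodMk ((hrc 3).comp hj)
  have hrv : ∀ v : V, (fun i => r i v.1) = ![0, 1, (E v).1, (E v).2] := by
    intro v
    funext i
    fin_cases i
    · exact v.2.1
    · exact hr1 v
    · rfl
    · rfl
  have mem : ∀ v, E v ∈ MM := by
    intro v
    have h1 := hr v.1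
    have h0 := v.2.1
    have h11 := hr1 v
    refine ⟨?_, ?_, ?_, ?_, ?_⟩
    · rw [← h0]; exact h1.ne (by decide : (2 : Fin 4) ≠ 0)
    · rw [← h11]; exact h1.ne (by decide : (2 : Fin 4) ≠ 1)
    · rw [← h0]; exact h1.ne (by decide : (3 : Fin 4) ≠ 0)
    · rw [← h11]; exact h1.ne (by decide : (3 : Fin 4) ≠ 1)
    · exact h1.ne (by decide : (2 : Fin 4) ≠ 3)
  have hpE : ∀ v : V, (p v.1 : Fin 4 → ℂ) = sli_c (E v) := by
    intro v
    rw [rth_eq_coef (hprod v.1)]
    exact congrArg rth_coef (hrv v)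
  have hcov : IsCoveringMap (fun v => (⟨E v, mem v⟩ : MM)) := by
    refine cov V MM _ (hEc.subtype_mk _) ?_ ?_
    · intro v
      obtain ⟨O, hO, hvO, hOi⟩ := hp.isLocalHomeomorph.isLocallyInjective v.1
      refine ⟨j ⁻¹' O, hj.continuousAt (hO.mem_nhds hvO), ?_⟩
      intro a ha b hb hab
      have hE : E a = E b := congrArg Subtype.val hab
      refine Subtype.ext (hOi ha hb (Subtype.ext ?_))
      rw [hpE, hpE, hE]
    · intro m₀
      have hd := dd_pos m₀.2
      refine ⟨Subtype.val ⁻¹' ball m₀.1 (dd m₀.1), isOpen_ball.preimage continuous_subtype_val,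
        mem_ball_self hd, ?_, ?_⟩
      · rw [← Topology.IsInducing.subtypeVal.isPreconnected_image,
          Set.image_preimage_eq_of_subset (by simpa using ball_dd_subset)]
        exact (convex_ball _ _).isPreconnected
      · intro v hv
        have hvb : E v ∈ ball m₀.1 (dd m₀.1) := hv
        obtain ⟨G, hGc, hG, hG0⟩ := sli_life p hp (ball m₀.1 (dd m₀.1)) sli_c (E v) v.1
          (convex_ball _ _) hvb sli_c_differentiable.continuous.continuousOn
          (fun m hm => sli_mem hD (ball_dd_subset hm)) (hpE v)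
        have hconn : IsPreconnected (ball m₀.1 (dd m₀.1)) := (convex_ball _ _).isPreconnected
        -- the roots of `G`
        have hGr : ∀ m ∈ ball m₀.1 (dd m₀.1), ∀ i, r i (G m) =
            (![0, 1, m.1, m.2] : Fin 4 → ℂ) i := by
          let g₁ : ℂ × ℂ → rot_Conf := fun m => ⟨fun i => r i (G m), hr _⟩
          let g₂ : ℂ × ℂ → rot_Conf := fun m =>
            if h : m ∈ MM then ⟨![0, 1, m.1, m.2], sli_inj h⟩ else g₁ m
          have hg₂ : ∀ m ∈ ball m₀.1 (dd m₀.1), (g₂ m).1 = ![0, 1, m.1, m.2] := by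
            intro m hm
            simp only [g₂, dif_pos (ball_dd_subset hm)]
          have h1 : ContinuousOn g₁ (ball m₀.1 (dd m₀.1)) := by
            refine Topology.IsInducing.subtypeVal.continuousOn_iff.2 (continuousOn_pi.2 fun i => ?_)
            exact (hrc i).comp_continuousOn hGc
          have h2 : ContinuousOn g₂ (ball m₀.1 (dd m₀.1)) := by
            refine Topology.IsInducing.subtypeVal.continuousOn_iff.2 ?_
            refine ContinuousOn.congr (f := fun m : ℂ × ℂ => (![0, 1, m.1, m.2] : Fin 4 → ℂ))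
              ?_ hg₂
            refine Continuous.continuousOn (continuous_pi fun i => ?_)
            fin_cases i <;> simp <;> fun_prop
          have h3 : EqOn g₁ g₂ (ball m₀.1 (dd m₀.1)) := by
            refine (rot_covering hD).eqOn_of_comp_eqOn hconn h1 h2 ?_ hvb ?_
            · intro m hm
              refine Subtype.ext ?_
              change rth_coef (fun i => r i (G m)) = rth_coef (g₂ m).1
              rw [hg₂ m hm, ← rth_eq_coef (hprod (G m)), hG m hm]
              rfl
            · refine Subtype.ext ?_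
              rw [hg₂ _ hvb]
              change (fun i => r i (G (E v))) = _
              rw [hG0]
              exact hrv v
          intro m hm i
          have h4 := congrFun (congrArg Subtype.val (h3 hm)) i
          rw [hg₂ m hm] at h4
          exact h4
        have hGθ : ∀ m ∈ ball m₀.1 (dd m₀.1), θ (G m) = 0 := by
          have h1 : ContinuousOn (fun m => θ (G m)) (ball m₀.1 (dd m₀.1)) :=
            hθc.comp_continuousOn hGc
          have h3 : EqOn (fun m => θ (G m)) (fun _ => 0) (ball m₀.1 (dd m₀.1)) := by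
            refine Complex.isCoveringMap_exp.eqOn_of_comp_eqOn hconn h1 continuousOn_const ?_
              hvb ?_
            · intro m hm
              refine Subtype.ext ?_
              change Complex.exp (θ (G m)) = Complex.exp 0
              rw [hθ, hGr m hm, hGr m hm]
              simp
            · rw [hG0]
              exact v.2.2
          exact fun m hm => h3 hm
        have hGV : ∀ m ∈ ball m₀.1 (dd m₀.1), r 0 (G m) = 0 ∧ θ (G m) = 0 := fun m hm =>
          ⟨hGr m hm 0, hGθ m hm⟩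
        let s : MM → V := fun m => if h : r 0 (G m.1) = 0 ∧ θ (G m.1) = 0 then ⟨G m.1, h⟩ else v
        have hs : ∀ m : MM, m.1 ∈ ball m₀.1 (dd m₀.1) → (s m).1 = G m.1 := by
          intro m hm
          simp only [s, dif_pos (hGV m.1 hm)]
        refine ⟨s, ?_, ?_, ?_⟩
        · refine Topology.IsInducing.subtypeVal.continuousOn_iff.2 ?_
          refine ContinuousOn.congr (f := fun m : MM => G m.1) ?_ hs
          exact hGc.comp continuous_subtype_val.continuousOn (fun m hm => hm)
        · intro m hm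
          refine Subtype.ext ?_
          change (r 2 (s m).1, r 3 (s m).1) = m.1
          rw [hs m hm, hGr _ hm, hGr _ hm]
          rfl
        · refine Subtype.ext ?_
          rw [hs _ hvb]
          exact hG0
  obtain ⟨A, hA⟩ := atl V E mem hcov
  refine ⟨V, inferInstance, hVs, A, j, π, hj, hπ, hπj, fun F hF => ⟨?_, ?_⟩⟩
  · exact hπ.comp (hF.1.comp hj)
  · intro v
    have hd : dd (A.E v) > 0 := A.dd_pos v
    have hσ0 : j (A.sec v (A.E v)) = v.1 := by rw [A.sec_self]
    have hσc : ContinuousAt (fun m => j (A.sec v m)) (A.E v) :=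
      hj.continuousAt.comp (A.continuousAt_sec v (A.self_mem v))
    have hσ : ∀ᶠ m in 𝓝 (A.E v), (p (j (A.sec v m)) : Fin 4 → ℂ) = sli_c m := by
      filter_upwards [isOpen_ball.mem_nhds (A.self_mem v)] with m hm
      rw [hpE, ← hA, A.E_sec v m hm]
    have key := fun i => sli_hol hD p r hp hrc hprod F hF v.1 (fun m => j (A.sec v m)) (A.E v)
      hσ0 hσc hσ i
    have hne : ∀ x, r 1 x - r 0 x ≠ 0 := flo_ne hr
    have hEπ : ∀ x, A.E (π x) = ((r 2 x - r 0 x) / (r 1 x - r 0 x),
        (r 3 x - r 0 x) / (r 1 x - r 0 x)) := by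
      intro x
      rw [hA]
      change (r 2 (H (x, 1)), r 3 (H (x, 1))) = _
      rw [(hH x 1).2 2, (hH x 1).2 3]
      simp
    simp only [hEπ]
    have hd1 := ((key 1).fun_sub (key 0)).fun_inv (hne _)
    simp only [div_eq_mul_inv]
    exact (((key 2).fun_sub (key 0)).fun_mul hd1).prodMk (((key 3).fun_sub (key 0)).fun_mul hd1)

end Pool.Agent.H63.TC
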